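import Pool.Agent.Helper72.GP.Goals

/-!
# Packet GP-PAR (project GP, MP_c9dfb5_co): the choice of the parameters
-/

set_option autoImplicit false

namespace Pool.Agent.Helper95.GP

open Finset Polynomial
open scoped Polynomial.Bivariate Classical
open Pool.Agent.Helper72.GP

noncomputable section

/-- the lower bound for `β` -/
theorem bet_lower {R M L e H B H2 : ℕ} (hL : 0 < L) (hM : 0 < M) (hB : 0 < B) (hH : 0 < H)
    (hH2 : 0 < H2) (hR : 0 < R) (h1 : R ≤ 2 * (H * L)) (h2 : R ≤ 4 * (B * e))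
    (h3 : M ≤ 32 * (H2 * L ^ 2)) :
    1 / (32768 * (H : ℝ) ^ 6 * (B : ℝ) ^ 2 * H2) ≤ bet R M L e := by
  have hL' : (0 : ℝ) < L := by exact_mod_cast hL
  have hM' : (0 : ℝ) < M := by exact_mod_cast hM
  have hB' : (0 : ℝ) < B := by exact_mod_cast hB
  have hH' : (0 : ℝ) < H := by exact_mod_cast hH
  have hH2' : (0 : ℝ) < H2 := by exact_mod_cast hH2
  have hR' : (0 : ℝ) < R := by exact_mod_cast hR
  have h1' : (R : ℝ) ≤ 2 * (H * L) := by exact_mod_cast h1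
  have h2' : (R : ℝ) ≤ 4 * (B * e) := by exact_mod_cast h2
  have h3' : (M : ℝ) ≤ 32 * (H2 * (L : ℝ) ^ 2) := by exact_mod_cast h3
  have he' : (0 : ℝ) ≤ e := Nat.cast_nonneg e
  unfold bet
  rw [div_pow, div_mul_div_comm, div_le_div_iff₀ (by positivity) (by positivity), one_mul]
  -- `R^8 M ≤ L^8 e^2 (2^15 H^6 B^2 H2)`
  have a1 : (R : ℝ) ^ 6 ≤ (2 * (H * L)) ^ 6 := pow_le_pow_left₀ hR'.le h1' 6
  have a2 : (R : ℝ) ^ 2 ≤ (4 * (B * e)) ^ 2 := pow_le_pow_left₀ hR'.le h2' 2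
  calc (R : ℝ) ^ 8 * M = ((R : ℝ) ^ 6 * (R : ℝ) ^ 2) * M := by ring
    _ ≤ ((2 * ((H : ℝ) * L)) ^ 6 * (4 * (B * e)) ^ 2) * (32 * (H2 * (L : ℝ) ^ 2)) := by
        refine mul_le_mul (mul_le_mul a1 a2 (by positivity) (by positivity)) h3' hM'.le
          (by positivity)
    _ = (L : ℝ) ^ 8 * (e : ℝ) ^ 2 * (32768 * (H : ℝ) ^ 6 * (B : ℝ) ^ 2 * H2) := by ring

theorem par : PAR := by
  refine ⟨4000000 ^ 32, fun n N H t hn hN hH hHn ht htn => ?_⟩
  have hn0 : 0 < n := lt_of_lt_of_le (by positivity) hn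
  have hn0' : (0 : ℝ) < n := by exact_mod_cast hn0
  obtain ⟨y, hy⟩ : ∃ y : ℝ, y = (n : ℝ) ^ ((1 : ℝ) / 32) := ⟨_, rfl⟩
  have y0 : 0 < y := by rw [hy]; exact Real.rpow_pos_of_pos hn0' _
  have ypow : ∀ k : ℕ, y ^ k = (n : ℝ) ^ ((k : ℝ) / 32) := by
    intro k
    rw [hy, ← Real.rpow_natCast, ← Real.rpow_mul hn0'.le]
    congr 1
    ring
  have y32 : y ^ 32 = n := by
    rw [ypow]
    norm_num
  have yb : 4000000 ≤ y := by
    by_contra h
    push Not at h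
    have h1 : y ^ 32 < 4000000 ^ 32 := pow_lt_pow_left₀ h y0.le (by norm_num)
    rw [y32] at h1
    have h2 : ((4000000 ^ 32 : ℕ) : ℝ) ≤ n := by exact_mod_cast hn
    push_cast at h2
    linarith
  have y1 : 1 ≤ y := by linarith
  have ht4 : (t : ℝ) ≤ y ^ 4 := by
    rw [ypow]
    refine htn.trans (le_of_eq ?_)
    norm_num
  have hH6 : (H : ℝ) ^ 6 ≤ y ^ 4 := by
    rw [ypow]
    have h1 : (H : ℝ) ^ 6 ≤ ((n : ℝ) ^ ((1 : ℝ) / 48)) ^ 6 :=
      pow_le_pow_left₀ (Nat.cast_nonneg H) hHn 6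
    refine h1.trans (le_of_eq ?_)
    rw [← Real.rpow_natCast, ← Real.rpow_mul hn0'.le]
    congr 1
    norm_num
  have hHy : (H : ℝ) ≤ y := by
    refine hHn.trans ?_
    rw [hy]
    refine Real.rpow_le_rpow_of_exponent_le ?_ (by norm_num)
    exact_mod_cast hn0
  -- the number `B`
  have hex : ∃ B : ℕ, 8 * t * n ≤ B ^ 8 := by
    refine ⟨8 * t * n, ?_⟩
    rcases Nat.eq_zero_or_pos (8 * t * n) with h | h
    · rw [h]; norm_num
    · exact Nat.le_self_pow (by norm_num) _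
  obtain ⟨B, hBmin, hB8⟩ : ∃ B : ℕ, (∀ b < B, b ^ 8 < 8 * t * n) ∧ 8 * t * n ≤ B ^ 8 := by
    refine ⟨Nat.find hex, fun b hb => ?_, Nat.find_spec hex⟩
    have := Nat.find_min hex hb
    omega
  have h8 : 16 ≤ 8 * t * n := by
    have : 2 * 1 ≤ t * n := Nat.mul_le_mul ht hn0
    nlinarith
  have hB2 : 2 ≤ B := by
    by_contra h
    have : B = 0 ∨ B = 1 := by omega
    rcases this with h | h
    · rw [h] at hB8
      norm_num at hB8
      omega
    · rw [h] at hB8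
      norm_num at hB8
      omega
  have hBy : (B : ℝ) ^ 2 ≤ 7 * y ^ 9 := by
    by_contra hcon
    push Not at hcon
    have h1 := hBmin (B - 1) (by omega)
    have h2 : (B : ℝ) ≤ 2 * ((B - 1 : ℕ) : ℝ) := by
      have : B ≤ 2 * (B - 1) := by omega
      exact_mod_cast this
    have h3 : (((B - 1 : ℕ) : ℝ)) ^ 8 < 8 * t * n := by exact_mod_cast h1
    have h4 : (B : ℝ) ^ 8 ≤ (2 * ((B - 1 : ℕ) : ℝ)) ^ 8 :=
      pow_le_pow_left₀ (Nat.cast_nonneg B) h2 8
    have h5 : (8 : ℝ) * t * n ≤ 8 * y ^ 36 := by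
      rw [← y32]
      have := mul_le_mul_of_nonneg_right ht4 (pow_nonneg y0.le 32)
      nlinarith
    have h6 : (7 * y ^ 9) ^ 4 < ((B : ℝ) ^ 2) ^ 4 :=
      pow_lt_pow_left₀ hcon (by positivity) (by norm_num)
    have h7 : (0 : ℝ) < y ^ 36 := pow_pos y0 36
    have h8 : (7 * y ^ 9) ^ 4 = 2401 * y ^ 36 := by ring
    have h9 : ((B : ℝ) ^ 2) ^ 4 = (B : ℝ) ^ 8 := by ring
    have h10 : (2 * ((B - 1 : ℕ) : ℝ)) ^ 8 = 256 * (((B - 1 : ℕ) : ℝ)) ^ 8 := by ring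
    rw [h8, h9] at h6
    rw [h10] at h4
    linarith
  have hHB : H ≤ B := by
    by_contra h
    push Not at h
    have h1 : (B : ℝ) ^ 8 ≤ (H : ℝ) ^ 8 := pow_le_pow_left₀ (Nat.cast_nonneg B)
      (by exact_mod_cast h.le) 8
    have h2 : (H : ℝ) ^ 8 ≤ y ^ 8 := pow_le_pow_left₀ (Nat.cast_nonneg H) hHy 8
    have h3 : (8 : ℝ) * t * n ≤ (B : ℝ) ^ 8 := by exact_mod_cast hB8
    have h4 : (2 : ℝ) ≤ t := by exact_mod_cast ht
    have h5 : y ^ 8 ≤ y ^ 32 := pow_le_pow_right₀ y1 (by norm_num)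
    rw [y32] at h5
    nlinarith
  -- the number `H2`
  obtain ⟨H2, hH2⟩ : ∃ H2 : ℕ, H2 = 2 * ⌈y ^ 2⌉₊ := ⟨_, rfl⟩
  have hH2l : 2 * y ^ 2 ≤ (H2 : ℝ) := by
    rw [hH2]
    push_cast
    have := Nat.le_ceil (y ^ 2)
    linarith
  have hH2u : (H2 : ℝ) ≤ 4 * y ^ 2 := by
    rw [hH2]
    push_cast
    have h1 := Nat.ceil_lt_add_one (pow_nonneg y0.le 2)
    have h2 : 1 ≤ y ^ 2 := one_le_pow₀ y1
    linarith
  have hHH2 : H ≤ H2 := by
    have h1 : y ≤ y ^ 2 := by nlinarith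
    have : (H : ℝ) ≤ H2 := by nlinarith
    exact_mod_cast this
  have hH2p : 0 < H2 := lt_of_lt_of_le hH hHH2
  -- the prime `R`
  obtain ⟨R, hRl, hRp⟩ := Nat.exists_infinite_primes
    (64 * n ^ 2 * t * (6 * N) ^ 8 + 16 * n * t + 2 * B + H * (2 * N + 1))
  have hR0 : 0 < R := hRp.pos
  obtain ⟨L, hL⟩ : ∃ L, L = R / H := ⟨_, rfl⟩
  obtain ⟨e, he⟩ : ∃ e, e = R / (2 * B) := ⟨_, rfl⟩
  have hHL : H * L ≤ R := by rw [hL]; exact Nat.mul_div_le R H
  have hRH : H * (2 * N + 1) ≤ R := by omega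
  have hNL : 2 * N < L := by
    rw [hL]
    have := (Nat.le_div_iff_mul_le hH).2 (by rw [mul_comm]; exact hRH : (2 * N + 1) * H ≤ R)
    omega
  have hL1 : 1 ≤ L := by omega
  have hRL : R ≤ 2 * (H * L) := by
    have h1 : R < H * (L + 1) := by
      rw [hL]
      exact Nat.lt_mul_div_succ R hH
    have h2 : H * 1 ≤ H * L := Nat.mul_le_mul_left H hL1
    have h3 : H * (L + 1) = H * L + H * 1 := by ring
    omega
  have he1 : 1 ≤ e := by
    rw [he]
    exact (Nat.le_div_iff_mul_le (by omega)).2 (by omega)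
  have heR : 2 * B * e ≤ R := by rw [he]; exact Nat.mul_div_le R (2 * B)
  have hRe : R ≤ 4 * (B * e) := by
    have h1 : R < 2 * B * (e + 1) := by
      rw [he]
      exact Nat.lt_mul_div_succ R (by omega)
    have h2 : B * 1 ≤ B * e := Nat.mul_le_mul_left B he1
    have h3 : 2 * B * (e + 1) = 2 * (B * e) + 2 * (B * 1) := by ring
    omega
  have heL : e ≤ L := by
    have h1 : B * e ≤ B * L := by
      have h2 : 2 * (B * e) ≤ 2 * (B * L) := by
        calc 2 * (B * e) = 2 * B * e := by ring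
          _ ≤ R := heR
          _ ≤ 2 * (H * L) := hRL
          _ ≤ 2 * (B * L) := Nat.mul_le_mul_left 2 (Nat.mul_le_mul_right L hHB)
      omega
    exact Nat.le_of_mul_le_mul_left h1 (by omega)
  have heL2 : e ^ 2 ≤ L ^ 2 := Nat.pow_le_pow_left heL 2
  have hKpos : 16 * (H2 * L ^ 2) ≠ 0 := by positivity
  obtain ⟨M, hMp, hM1, hM2⟩ := Nat.exists_prime_lt_and_le_two_mul _ hKpos
  have hM2' : M ≤ 32 * (H2 * L ^ 2) := by omega
  have hM0 : 0 < M := hMp.pos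
  -- the lower bound
  have hlow := bet_lower (e := e) hL1 hM0 (by omega : 0 < B) hH hH2p hR0 hRL hRe hM2'
  have hlow2 : 1 / (4000000 * y ^ 15) ≤ bet R M L e := by
    refine le_trans ?_ hlow
    have hBp : (0 : ℝ) < B := by
      have : 0 < B := by omega
      exact_mod_cast this
    have hHp : (0 : ℝ) < H := by exact_mod_cast hH
    have hH2p' : (0 : ℝ) < H2 := by exact_mod_cast hH2p
    refine one_div_le_one_div_of_le (by positivity) ?_
    calc 32768 * (H : ℝ) ^ 6 * (B : ℝ) ^ 2 * H2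
        ≤ 32768 * y ^ 4 * (7 * y ^ 9) * (4 * y ^ 2) := by
          refine mul_le_mul (mul_le_mul (mul_le_mul_of_nonneg_left hH6 (by norm_num)) hBy
            (by positivity) (by positivity)) hH2u (by positivity) (by positivity)
      _ = 917504 * y ^ 15 := by ring
      _ ≤ 4000000 * y ^ 15 := mul_le_mul_of_nonneg_right (by norm_num) (by positivity)
  have hlow3 : 1 / y ^ 16 ≤ bet R M L e := by
    refine le_trans ?_ hlow2
    refine one_div_le_one_div_of_le (by positivity) ?_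
    calc 4000000 * y ^ 15 ≤ y * y ^ 15 := mul_le_mul_of_nonneg_right yb (by positivity)
      _ = y ^ 16 := by ring
  have hbpos : 0 < bet R M L e := lt_of_lt_of_le (by positivity) hlow3
  have hRr : (0 : ℝ) < R := by exact_mod_cast hR0
  have hR1 : (1 : ℝ) ≤ R := by exact_mod_cast hR0
  refine ⟨R, M, L, e, H2, ⟨hRp, hMp, hH, hHH2, hHL, hRL, hNL, ?_, he1, hM1⟩, ?_, ?_, ?_, ?_, ?_⟩
  · omega
  · have hBp : (0 : ℝ) < B := by
      have : 0 < B := by omega
      exact_mod_cast this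
    have h1 : (2 * e : ℝ) / R ≤ 1 / B := by
      rw [div_le_div_iff₀ hRr hBp]
      have : ((2 * B * e : ℕ) : ℝ) ≤ R := by exact_mod_cast heR
      push_cast at this
      linarith
    have h2 : ((2 * e : ℝ) / R) ^ 8 ≤ (1 / B) ^ 8 := pow_le_pow_left₀ (by positivity) h1 8
    have h3 : (8 : ℝ) * t * n ≤ (B : ℝ) ^ 8 := by exact_mod_cast hB8
    calc 8 * (t : ℝ) * n * ((2 * e : ℝ) / R) ^ 8 ≤ (B : ℝ) ^ 8 * (1 / B) ^ 8 :=
          mul_le_mul h3 h2 (by positivity) (by positivity)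
      _ = 1 := by rw [← mul_pow, mul_one_div_cancel hBp.ne', one_pow]
  · have hH2p' : (0 : ℝ) < H2 := by exact_mod_cast hH2p
    have h1 : (2 : ℝ) / H2 ≤ 1 / y ^ 2 := by
      rw [div_le_div_iff₀ hH2p' (by positivity)]
      linarith
    have h2 : ((2 : ℝ) / H2) ^ 8 ≤ (1 / y ^ 2) ^ 8 := pow_le_pow_left₀ (by positivity) h1 8
    refine h2.trans (le_trans (le_of_eq ?_) hlow3)
    rw [div_pow, one_pow, ← pow_mul]
  · -- the main inequality for `R`
    have hRbig : 64 * n ^ 2 * t * (6 * N) ^ 8 ≤ R := by omega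
    have hRbig2 : 16 * n * t ≤ R := by omega
    have c1 : (64 : ℝ) * (n : ℝ) ^ 2 * t * (6 * N) ^ 8 ≤ R := by exact_mod_cast hRbig
    have c2 : (16 : ℝ) * n * t ≤ R := by exact_mod_cast hRbig2
    have hR7 : (R : ℝ) ≤ (R : ℝ) ^ 7 := le_self_pow₀ hR1 (by norm_num)
    have hR8 : (R : ℝ) ≤ (R : ℝ) ^ 8 := le_self_pow₀ hR1 (by norm_num)
    have hbn : 1 / (n : ℝ) ≤ bet R M L e := by
      refine le_trans ?_ hlow3
      refine one_div_le_one_div_of_le (by positivity) ?_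
      rw [← y32]
      exact pow_le_pow_right₀ y1 (by norm_num)
    have d1 : (n : ℝ) * t * (2 * (6 * N) ^ 8 / (R : ℝ) ^ 7) ≤ bet R M L e / 16 := by
      have f1 : (n : ℝ) * t * (2 * (6 * N) ^ 8 / (R : ℝ) ^ 7) ≤ (1 / n) / 16 := by
        rw [← mul_div_assoc, div_div, div_le_div_iff₀ (by positivity) (by positivity), one_mul]
        have f2 := c1.trans hR7
        have f3 : (0 : ℝ) ≤ (n : ℝ) ^ 2 * t * (6 * N) ^ 8 := by positivity
        calc (n : ℝ) * t * (2 * (6 * N) ^ 8) * (n * 16)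
            = 32 * ((n : ℝ) ^ 2 * t * (6 * N) ^ 8) := by ring
          _ ≤ 64 * (n : ℝ) ^ 2 * t * (6 * N) ^ 8 := by nlinarith
          _ ≤ (R : ℝ) ^ 7 := f2
      refine f1.trans ?_
      exact div_le_div_of_nonneg_right hbn (by norm_num)
    have d2 : (n : ℝ) * t * (bet R M L e / (R : ℝ) ^ 8) ≤ bet R M L e / 16 := by
      rw [← mul_div_assoc, div_le_div_iff₀ (by positivity) (by norm_num)]
      have f2 := c2.trans hR8
      calc (n : ℝ) * t * bet R M L e * 16 = bet R M L e * (16 * n * t) := by ring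
        _ ≤ bet R M L e * (R : ℝ) ^ 8 := mul_le_mul_of_nonneg_left f2 hbpos.le
    calc (n : ℝ) * t * (2 * (6 * N) ^ 8 / (R : ℝ) ^ 7 + bet R M L e / (R : ℝ) ^ 8)
        = (n : ℝ) * t * (2 * (6 * N) ^ 8 / (R : ℝ) ^ 7) +
          (n : ℝ) * t * (bet R M L e / (R : ℝ) ^ 8) := by ring
      _ ≤ bet R M L e / 16 + bet R M L e / 16 := add_le_add d1 d2
      _ = bet R M L e / 8 := by ring
  · refine le_trans (le_of_eq ?_) hlow2
    have h1 : (n : ℝ) ^ (-(15 : ℝ) / 32) = 1 / y ^ 15 := by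
      rw [ypow, show (-(15 : ℝ) / 32) = -(((15 : ℕ) : ℝ) / 32) by norm_num,
        Real.rpow_neg hn0'.le, one_div]
    rw [h1]
    field_simp
  · unfold bet
    have hL' : (L : ℝ) ≤ R := by
      have : L ≤ R := by
        calc L = 1 * L := (one_mul L).symm
          _ ≤ H * L := Nat.mul_le_mul_right L hH
          _ ≤ R := hHL
      exact_mod_cast this
    have h1 : (L : ℝ) / R ≤ 1 := (div_le_one hRr).2 hL'
    have h2 : ((L : ℝ) / R) ^ 8 ≤ 1 := pow_le_one₀ (by positivity) h1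
    have hM' : (0 : ℝ) < M := by exact_mod_cast hM0
    have h3 : (e : ℝ) ^ 2 / M ≤ 1 := by
      rw [div_le_one hM']
      have h4 : e ^ 2 ≤ M := by
        have h5 : L ^ 2 ≤ H2 * L ^ 2 := Nat.le_mul_of_pos_left _ hH2p
        omega
      exact_mod_cast h4
    exact mul_le_one₀ h2 (by positivity) h3

end

end Pool.Agent.Helper95.GP
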